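import Pool.Agent.Helper27.VF.Goals

set_option autoImplicit false

namespace Pool.Agent.Helper77.VF

open Pool.Agent.Helper27.VF

universe u

variable {W : Type u}

/-- Any two points of `A` are joined inside `A`. -/
def PreC (G : SimpleGraph W) (A : Set W) : Prop :=
  ∀ a ∈ A, ∀ b ∈ A, Relation.ReflTransGen (fun x y => G.Adj x y ∧ y ∈ A) a b

theorem rtg_mono {G : SimpleGraph W} {A B : Set W} (h : A ⊆ B) {a b : W}
    (hab : Relation.ReflTransGen (fun x y => G.Adj x y ∧ y ∈ A) a b) :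
    Relation.ReflTransGen (fun x y => G.Adj x y ∧ y ∈ B) a b :=
  Relation.ReflTransGen.mono (fun _ _ h1 => ⟨h1.1, h h1.2⟩) _ _ hab

/-- The union of two joined sets with a common point. -/
theorem preC_union {G : SimpleGraph W} {A B : Set W} (hA : PreC G A) (hB : PreC G B) {u : W}
    (hu : u ∈ A) (hv : u ∈ B) : PreC G (A ∪ B) := by
  rintro a (ha | ha) b (hb | hb)
  · exact rtg_mono Set.subset_union_left (hA a ha b hb)
  · exact (rtg_mono Set.subset_union_left (hA a ha u hu)).trans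
      (rtg_mono Set.subset_union_right (hB u hv b hb))
  · exact (rtg_mono Set.subset_union_right (hB a ha u hv)).trans
      (rtg_mono Set.subset_union_left (hA u hu b hb))
  · exact rtg_mono Set.subset_union_right (hB a ha b hb)

theorem preC_singleton (G : SimpleGraph W) (a : W) : PreC G {a} := by
  rintro x rfl y rfl
  exact Relation.ReflTransGen.refl

theorem preC_empty (G : SimpleGraph W) : PreC G (∅ : Set W) := by
  intro a ha
  exact absurd ha (Set.notMem_empty a)

theorem preC_pair {G : SimpleGraph W} {a b : W} (h : G.Adj a b) : PreC G {a, b} := by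
  have e1 : Relation.ReflTransGen (fun x y => G.Adj x y ∧ y ∈ ({a, b} : Set W)) a b :=
    Relation.ReflTransGen.single ⟨h, Or.inr rfl⟩
  have e2 : Relation.ReflTransGen (fun x y => G.Adj x y ∧ y ∈ ({a, b} : Set W)) b a :=
    Relation.ReflTransGen.single ⟨h.symm, Or.inl rfl⟩
  rintro x (rfl | rfl) y (rfl | rfl)
  · exact Relation.ReflTransGen.refl
  · exact e1
  · exact e2
  · exact Relation.ReflTransGen.refl

theorem exists_path {G : SimpleGraph W} {F : Set W} {a b : W} (ha : a ∉ F)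
    (hb : Relation.ReflTransGen (fun x y => G.Adj x y ∧ y ∉ F) a b) :
    ∃ P : Set W, P.Finite ∧ PreC G P ∧ a ∈ P ∧ b ∈ P ∧ ∀ x ∈ P, x ∉ F := by
  induction hb with
  | refl => exact ⟨{a}, Set.finite_singleton _, preC_singleton G a, rfl, rfl, by
      rintro x rfl; exact ha⟩
  | tail hab hbc ih =>
    rename_i b c
    obtain ⟨P, h1, h2, h3, h4, h5⟩ := ih
    refine ⟨P ∪ {b, c}, h1.union (Set.toFinite _), preC_union h2 (preC_pair hbc.1)
      h4 (Or.inl rfl), Or.inl h3, Or.inr (Or.inr rfl), ?_⟩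
    rintro x (hx | rfl | rfl)
    · exact h5 x hx
    · exact h5 _ h4
    · exact hbc.2

/-- Finite stages of the construction of a complete minor. -/
structure Ok (G : SimpleGraph W) (Y : Set W) (β : ℕ → Set W) : Prop where
  fin : ∀ i, (β i).Finite
  disj : ∀ i j x, x ∈ β i → x ∈ β j → i = j
  pre : ∀ i, PreC G (β i)
  supp : ∃ N, ∀ i, N ≤ i → β i = ∅
  rep : ∀ i, (β i).Nonempty → ∃ y ∈ β i, y ∈ Y

theorem Ok.union_fin {G : SimpleGraph W} {Y : Set W} {β : ℕ → Set W} (h : Ok G Y β) :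
    (⋃ i, β i).Finite := by
  obtain ⟨N, hN⟩ := h.supp
  refine (Set.Finite.biUnion (Set.finite_Iio N) (fun i _ => h.fin i)).subset ?_
  intro x hx
  obtain ⟨i, hi⟩ := Set.mem_iUnion.1 hx
  refine Set.mem_biUnion (x := i) ?_ hi
  by_contra hcon
  rw [hN i (by simpa using hcon)] at hi
  exact hi

theorem Ok.update {G : SimpleGraph W} {Y : Set W} {β : ℕ → Set W} (h : Ok G Y β) (i : ℕ)
    (P : Set W) (hP : P.Finite) (hd : ∀ x ∈ P, x ∉ ⋃ k, β k) (hpre : PreC G (β i ∪ P))
    (hY : ∃ y ∈ β i ∪ P, y ∈ Y) :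
    Ok G Y (Function.update β i (β i ∪ P)) := by
  have key : ∀ k x, x ∈ Function.update β i (β i ∪ P) k → (x ∈ β k ∨ (k = i ∧ x ∈ P)) := by
    intro k x hx
    by_cases hk : k = i
    · subst hk
      rw [Function.update_self] at hx
      rcases hx with hx | hx
      · exact Or.inl hx
      · exact Or.inr ⟨rfl, hx⟩
    · rw [Function.update_of_ne hk] at hx
      exact Or.inl hx
  refine ⟨?_, ?_, ?_, ?_, ?_⟩
  · intro k
    by_cases hk : k = i
    · subst hk
      rw [Function.update_self]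
      exact (h.fin k).union hP
    · rw [Function.update_of_ne hk]
      exact h.fin k
  · intro k l x hx hx'
    rcases key k x hx with h1 | ⟨h1, h1'⟩ <;> rcases key l x hx' with h2 | ⟨h2, h2'⟩
    · exact h.disj k l x h1 h2
    · exact absurd (Set.mem_iUnion.2 ⟨k, h1⟩) (hd x h2')
    · exact absurd (Set.mem_iUnion.2 ⟨l, h2⟩) (hd x h1')
    · rw [h1, h2]
  · intro k
    by_cases hk : k = i
    · subst hk
      rw [Function.update_self]
      exact hpre
    · rw [Function.update_of_ne hk]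
      exact h.pre k
  · obtain ⟨N, hN⟩ := h.supp
    refine ⟨max N (i + 1), ?_⟩
    intro k hk
    have hki : k ≠ i := by
      have := le_of_max_le_right hk
      omega
    rw [Function.update_of_ne hki]
    exact hN k (le_of_max_le_left hk)
  · intro k
    by_cases hk : k = i
    · subst hk
      rw [Function.update_self]
      exact fun _ => hY
    · rw [Function.update_of_ne hk]
      exact h.rep k

theorem update_le {β : ℕ → Set W} (i : ℕ) (P : Set W) (k : ℕ) :
    β k ⊆ Function.update β i (β i ∪ P) k := by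
  by_cases hk : k = i
  · subst hk
    rw [Function.update_self]
    exact Set.subset_union_left
  · rw [Function.update_of_ne hk]

theorem Ok.nonempty {G : SimpleGraph W} {Y : Set W} {β : ℕ → Set W} (hinf : Y.Infinite)
    (h : Ok G Y β) (i : ℕ) :
    ∃ β', Ok G Y β' ∧ (∀ k, β k ⊆ β' k) ∧ (β' i).Nonempty := by
  by_cases hi : (β i).Nonempty
  · exact ⟨β, h, fun k => le_refl _, hi⟩
  · have he : β i = ∅ := Set.not_nonempty_iff_eq_empty.1 hi
    obtain ⟨v, hvY, hv⟩ := (hinf.sdiff h.union_fin).nonempty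
    refine ⟨Function.update β i (β i ∪ {v}), h.update i {v} (Set.finite_singleton _) ?_ ?_
      ⟨v, Or.inr rfl, hvY⟩, update_le i {v}, ⟨v, ?_⟩⟩
    · rintro x rfl
      exact hv
    · rw [he, Set.empty_union]
      exact preC_singleton G v
    · rw [Function.update_self]
      exact Or.inr rfl

theorem Ok.step {G : SimpleGraph W} {Y : Set W} {β : ℕ → Set W} (hinf : Y.Infinite)
    (hcut : ∀ x ∈ Y, ∀ y ∈ Y, ∀ c, IsCut G c → ¬ (x ∈ c.1 ∧ y ∈ c.2))
    (h : Ok G Y β) (i j : ℕ) (hij : i ≠ j) :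
    ∃ β', Ok G Y β' ∧ (∀ k, β k ⊆ β' k) ∧ ∃ a ∈ β' i, ∃ b ∈ β' j, G.Adj a b := by
  obtain ⟨β₁, h₁, hle₁, ⟨u₀, hu₀⟩⟩ := h.nonempty hinf i
  obtain ⟨β₂, h₂, hle₂, hne⟩ := h₁.nonempty hinf j
  obtain ⟨w, hw, hwY⟩ := h₂.rep j hne
  obtain ⟨u, hu, huY⟩ := h₂.rep i ⟨u₀, hle₂ i hu₀⟩
  have huw : w ≠ u := by
    rintro rfl
    exact hij (h₂.disj i j w hu hw)
  -- the used vertices without `u`
  set F : Set W := (⋃ k, β₂ k) \ {u} with hF
  have hFf : F.Finite := h₂.union_fin.subset Set.sdiff_subset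
  have huF : u ∉ F := fun hx => hx.2 rfl
  have hwF : w ∈ F := ⟨Set.mem_iUnion.2 ⟨j, hw⟩, huw⟩
  set C : Set W := {x | Relation.ReflTransGen (fun x y => G.Adj x y ∧ y ∉ F) u x} with hC
  have hCF : ∀ x ∈ C, x ∉ F := by
    intro x hx
    rcases Relation.ReflTransGen.cases_tail hx with rfl | ⟨y, _, hy⟩
    · exact huF
    · exact hy.2
  have hex : ∃ x ∈ C, G.Adj x w := by
    by_contra hcon
    push Not at hcon
    refine hcut u huY w hwY (C, (C ∪ (F \ {w}))ᶜ) ⟨?_, ?_, ?_⟩ ⟨?_, ?_⟩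
    · intro x hx hx'
      exact hx' (Or.inl hx)
    · refine hFf.subset ?_
      intro x hx
      rw [mem_sep] at hx
      obtain ⟨hx1, hx2⟩ := hx
      simp only [Set.mem_compl_iff, not_not] at hx2
      rcases hx2 with hx2 | hx2
      · exact absurd hx2 hx1
      · exact hx2.1
    · intro x hx y hy hxy
      simp only [Set.mem_compl_iff, Set.mem_union, not_or] at hy
      obtain ⟨hy1, hy2⟩ := hy
      by_cases hyF : y ∈ F
      · by_cases hyw : y = w
        · exact hcon x hx (hyw ▸ hxy)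
        · exact hy2 ⟨hyF, hyw⟩
      · exact hy1 (Relation.ReflTransGen.tail hx ⟨hxy, hyF⟩)
    · exact Relation.ReflTransGen.refl
    · simp only [Set.mem_compl_iff, Set.mem_union, not_or]
      exact ⟨fun hx => hCF w hx hwF, fun hx => hx.2 rfl⟩
  obtain ⟨x, hxC, hxw⟩ := hex
  obtain ⟨P, hP, hPC, huP, hxP, hPF⟩ := exists_path huF hxC
  have hun : β₂ i ∪ (P \ {u}) = β₂ i ∪ P := by
    ext y
    constructor
    · rintro (hy | hy)
      · exact Or.inl hy
      · exact Or.inr hy.1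
    · rintro (hy | hy)
      · exact Or.inl hy
      · by_cases hyu : y = u
        · exact Or.inl (hyu ▸ hu)
        · exact Or.inr ⟨hy, hyu⟩
  have hok := h₂.update i (P \ {u}) (hP.subset Set.sdiff_subset)
    (fun y hy hy' => hPF y hy.1 ⟨hy', hy.2⟩)
    (by rw [hun]; exact preC_union (h₂.pre i) hPC hu huP) ⟨u, Or.inl hu, huY⟩
  refine ⟨_, hok, ?_, x, ?_, w, ?_, hxw⟩
  · intro k
    exact ((hle₁ k).trans (hle₂ k)).trans (update_le i _ k)
  · rw [Function.update_self, hun]
    exact Or.inr hxP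
  · rw [Function.update_of_ne (Ne.symm hij)]
    exact hw

theorem preC_connected {G : SimpleGraph W} {A : Set W} (hA : PreC G A) (hne : A.Nonempty) :
    (G.induce A).Connected := by
  have hr : ∀ (a : W) (ha : a ∈ A) (b : W) (hb : b ∈ A),
      (G.induce A).Reachable ⟨a, ha⟩ ⟨b, hb⟩ := by
    intro a ha b hb
    have h := hA a ha b hb
    induction h with
    | refl => exact SimpleGraph.Reachable.refl _
    | tail hab hbc ih =>
      rename_i b c
      by_cases hbA : b ∈ A
      · refine (ih hbA).trans (SimpleGraph.Adj.reachable ?_)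
        simpa using hbc.1
      · exfalso
        rcases Relation.ReflTransGen.cases_tail hab with rfl | ⟨z, _, hz⟩
        · exact hbA ha
        · exact hbA hz.2
  have : Nonempty A := hne.to_subtype
  exact ⟨fun a b => hr a.1 a.2 b.1 b.2⟩

/-- **KND.** -/
theorem knd : KndStmt.{u} := by
  classical
  intro W G Y hinf hcut
  have step : ∀ (β : {β : ℕ → Set W // Ok G Y β}) (p : ℕ × ℕ),
      ∃ β' : {β : ℕ → Set W // Ok G Y β},
      (∀ k, β.1 k ⊆ β'.1 k) ∧ (p.1 ≠ p.2 → ∃ a ∈ β'.1 p.1, ∃ b ∈ β'.1 p.2, G.Adj a b) := by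
    rintro ⟨β, hβ⟩ ⟨i, j⟩
    by_cases hij : i = j
    · exact ⟨⟨β, hβ⟩, fun k => le_refl _, fun h => absurd hij h⟩
    · obtain ⟨β', h1, h2, h3⟩ := hβ.step hinf hcut i j hij
      exact ⟨⟨β', h1⟩, h2, fun _ => h3⟩
  choose nxt hnxt1 hnxt2 using step
  have h0 : Ok G Y (fun _ => (∅ : Set W)) :=
    ⟨fun _ => Set.finite_empty, fun _ _ x hx => absurd hx (Set.notMem_empty x),
      fun _ => preC_empty G, ⟨0, fun _ _ => rfl⟩,
      fun _ hne => absurd hne Set.not_nonempty_empty⟩
  let seq : ℕ → {β : ℕ → Set W // Ok G Y β} := fun n =>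
    Nat.rec ⟨fun _ => (∅ : Set W), h0⟩ (fun n β => nxt β (Nat.unpair n)) n
  have hseq : ∀ n, seq (n + 1) = nxt (seq n) (Nat.unpair n) := fun n => rfl
  have hmono1 : ∀ n k, (seq n).1 k ⊆ (seq (n + 1)).1 k := by
    intro n k
    rw [hseq]
    exact hnxt1 _ _ k
  have hmono : ∀ m n, m ≤ n → ∀ k, (seq m).1 k ⊆ (seq n).1 k := by
    intro m n hmn k
    induction hmn with
    | refl => exact le_refl _
    | step _ ih => exact ih.trans (hmono1 _ k)
  have hadj : ∀ i j, i ≠ j → ∃ n, ∃ a ∈ (seq n).1 i, ∃ b ∈ (seq n).1 j, G.Adj a b := by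
    intro i j hij
    refine ⟨Nat.pair i j + 1, ?_⟩
    rw [hseq, Nat.unpair_pair]
    exact hnxt2 _ (i, j) hij
  refine ⟨fun i => ⋃ n, (seq n).1 i, ?_, ?_, ?_⟩
  · intro i
    refine preC_connected ?_ ?_
    · intro a ha b hb
      obtain ⟨m, hm⟩ := Set.mem_iUnion.1 ha
      obtain ⟨n, hn⟩ := Set.mem_iUnion.1 hb
      have h1 := hmono m (max m n) (le_max_left _ _) i hm
      have h2 := hmono n (max m n) (le_max_right _ _) i hn
      exact rtg_mono (Set.subset_iUnion (fun n => (seq n).1 i) (max m n))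
        ((seq (max m n)).2.pre i a h1 b h2)
    · obtain ⟨n, a, ha, _⟩ := hadj i (i + 1) (by omega)
      exact ⟨a, Set.mem_iUnion.2 ⟨n, ha⟩⟩
  · intro i j hij
    rw [Set.disjoint_left]
    intro x hx hx'
    obtain ⟨m, hm⟩ := Set.mem_iUnion.1 hx
    obtain ⟨n, hn⟩ := Set.mem_iUnion.1 hx'
    exact hij ((seq (max m n)).2.disj i j x (hmono m (max m n) (le_max_left _ _) i hm)
      (hmono n (max m n) (le_max_right _ _) j hn))
  · intro i j hij
    obtain ⟨n, a, ha, b, hb, hab⟩ := hadj i j hij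
    exact ⟨a, Set.mem_iUnion.2 ⟨n, ha⟩, b, Set.mem_iUnion.2 ⟨n, hb⟩, hab⟩

end Pool.Agent.Helper77.VF
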