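import Pool.Agent.Helper96.VF.GoalsB

/-!
# Packet VF-BR1 (MP_6829b3_nt): splitting the double series into two simple ones
-/

set_option autoImplicit false

namespace Pool.Agent.Helper96.VF

open scoped Classical

theorem br1_key1 (C : ℕ → ℕ → Prop) [∀ j b, Decidable (C j b)] (w : ℕ → ℝ) (hw : Summable w) (h0 : ∀ b, 0 ≤ w b)
    (uq : ∀ b j j', C j b → C j' b → j = j') :
    Summable (fun b => if ∃ j, C j b then w b else 0) ∧
    HasSum (fun x : ℕ × ℕ => if C x.1 x.2 then w x.2 else 0)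
      (∑' b, if ∃ j, C j b then w b else 0) := by
  have hs : Summable (fun b => if ∃ j, C j b then w b else 0) := by
    refine Summable.of_nonneg_of_le (fun b => ?_) (fun b => ?_) hw
    · split_ifs
      · exact h0 b
      · exact le_refl _
    · split_ifs
      · exact le_refl _
      · exact h0 b
  refine ⟨hs, ?_⟩
  let J : ℕ → ℕ := fun b => if h : ∃ j, C j b then h.choose else 0
  have hJ : ∀ b, (∃ j, C j b) → C (J b) b := by
    intro b h
    have h1 : J b = h.choose := dif_pos h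
    rw [h1]
    exact h.choose_spec
  have hinj : Function.Injective (fun b : ℕ => (J b, b)) := fun a b h => (Prod.ext_iff.1 h).2
  have hz : ∀ x : ℕ × ℕ, x ∉ Set.range (fun b : ℕ => (J b, b)) →
      (if C x.1 x.2 then w x.2 else 0) = 0 := by
    intro x hx
    refine if_neg fun h => hx ⟨x.2, ?_⟩
    exact Prod.ext (uq x.2 _ _ (hJ x.2 ⟨x.1, h⟩) h) rfl
  rw [← hinj.hasSum_iff hz]
  have he : ((fun x : ℕ × ℕ => if C x.1 x.2 then w x.2 else 0) ∘ fun b : ℕ => (J b, b)) =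
      fun b => if ∃ j, C j b then w b else 0 := by
    funext b
    simp only [Function.comp_apply]
    by_cases h : ∃ j, C j b
    · rw [if_pos h, if_pos (hJ b h)]
    · rw [if_neg h, if_neg fun h1 => h ⟨_, h1⟩]
  rw [he]
  exact hs.hasSum

theorem br1_key2 (C : ℕ → ℕ → Prop) [∀ j b, Decidable (C j b)] (w : ℕ → ℝ) (hw : Summable w) (h0 : ∀ j, 0 ≤ w j)
    (uq : ∀ j b b', C j b → C j b' → b = b') :
    Summable (fun j => if ∃ b, C j b then w j else 0) ∧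
    HasSum (fun x : ℕ × ℕ => if C x.1 x.2 then w x.1 else 0)
      (∑' j, if ∃ b, C j b then w j else 0) := by
  have h := br1_key1 (fun b j => C j b) w hw h0 uq
  refine ⟨h.1, ?_⟩
  have h2 := (Equiv.prodComm ℕ ℕ).hasSum_iff
    (f := fun x : ℕ × ℕ => if C x.2 x.1 then w x.2 else 0)
    (a := ∑' j, if ∃ b, C j b then w j else 0)
  exact h2.2 h.2

theorem br1_pt (P Q R S : ℕ) (h1 : 0 < P) (h2 : P < Q) (h3 : 0 < R) (h4 : R < S) :
    mu (P : ℝ) (Q : ℝ) (R : ℝ) (S : ℝ) =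
      (if P ≤ R ∧ R < Q then 1 / (R : ℝ) else 0) + (if R < P ∧ P < S then 1 / (P : ℝ) else 0) -
      (if P < S ∧ S < Q then 1 / (S : ℝ) else 0) - (if R < Q ∧ Q ≤ S then 1 / (Q : ℝ) else 0) := by
  have c1 : (0 : ℝ) < P := by exact_mod_cast h1
  have c2 : (P : ℝ) < Q := by exact_mod_cast h2
  have c3 : (0 : ℝ) < R := by exact_mod_cast h3
  have c4 : (R : ℝ) < S := by exact_mod_cast h4
  have key : ∀ a b : ℝ, 0 < a → a ≤ b → max 0 (1 / a - 1 / b) = 1 / a - 1 / b := by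
    intro a b ha hab
    exact max_eq_right (sub_nonneg.2 (one_div_le_one_div_of_le ha hab))
  have key2 : ∀ a b : ℝ, 0 < b → b ≤ a → max 0 (1 / a - 1 / b) = 0 := by
    intro a b hb hab
    exact max_eq_left (sub_nonpos.2 (one_div_le_one_div_of_le hb hab))
  unfold mu
  rcases Nat.lt_or_ge R P with hRP | hRP
  · have d1 : (R : ℝ) ≤ P := by exact_mod_cast hRP.le
    rw [max_eq_left d1, if_neg (by omega : ¬ (P ≤ R ∧ R < Q))]
    rcases Nat.lt_or_ge S Q with hSQ | hSQ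
    · have d2 : (S : ℝ) ≤ Q := by exact_mod_cast hSQ.le
      rw [min_eq_right d2, if_neg (by omega : ¬ (R < Q ∧ Q ≤ S))]
      rcases Nat.lt_or_ge P S with hPS | hPS
      · have d3 : (P : ℝ) ≤ S := by exact_mod_cast hPS.le
        rw [key _ _ c1 d3, if_pos ⟨hRP, hPS⟩, if_pos ⟨hPS, hSQ⟩]
        ring
      · have d3 : (S : ℝ) ≤ P := by exact_mod_cast hPS
        rw [key2 _ _ (c3.trans c4) d3, if_neg (by omega : ¬ (R < P ∧ P < S)),
          if_neg (by omega : ¬ (P < S ∧ S < Q))]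
        ring
    · have d2 : (Q : ℝ) ≤ S := by exact_mod_cast hSQ
      rw [min_eq_left d2, key _ _ c1 c2.le, if_pos ⟨hRP, by omega⟩,
        if_neg (by omega : ¬ (P < S ∧ S < Q)), if_pos ⟨by omega, hSQ⟩]
      ring
  · have d1 : (P : ℝ) ≤ R := by exact_mod_cast hRP
    rw [max_eq_right d1, if_neg (by omega : ¬ (R < P ∧ P < S))]
    rcases Nat.lt_or_ge S Q with hSQ | hSQ
    · have d2 : (S : ℝ) ≤ Q := by exact_mod_cast hSQ.le
      rw [min_eq_right d2, key _ _ c3 c4.le, if_pos ⟨hRP, by omega⟩, if_pos ⟨by omega, hSQ⟩,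
        if_neg (by omega : ¬ (R < Q ∧ Q ≤ S))]
      ring
    · have d2 : (Q : ℝ) ≤ S := by exact_mod_cast hSQ
      rw [min_eq_left d2, if_neg (by omega : ¬ (P < S ∧ S < Q))]
      rcases Nat.lt_or_ge R Q with hRQ | hRQ
      · have d3 : (R : ℝ) ≤ Q := by exact_mod_cast hRQ.le
        rw [key _ _ c3 d3, if_pos ⟨hRP, hRQ⟩, if_pos ⟨hRQ, hSQ⟩]
        ring
      · have d3 : (Q : ℝ) ≤ R := by exact_mod_cast hRQ
        rw [key2 _ _ (c1.trans c2) d3, if_neg (by omega : ¬ (P ≤ R ∧ R < Q)),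
          if_neg (by omega : ¬ (R < Q ∧ Q ≤ S))]
        ring

/-- uniqueness of `j` -/
theorem br1_u1 (c p q X : ℕ) (hq : q ≤ c * p) (j j' : ℕ) (h1 : p * c ^ j ≤ X)
    (h2 : X < q * c ^ j) (h3 : p * c ^ j' ≤ X) (h4 : X < q * c ^ j') : j = j' := by
  have key : ∀ i k : ℕ, i < k → X < q * c ^ i → p * c ^ k ≤ X → 1 ≤ c → False := by
    intro i k hik ha hb hc
    have e1 : q * c ^ i ≤ p * c ^ (i + 1) := by
      calc q * c ^ i ≤ (c * p) * c ^ i := Nat.mul_le_mul_right _ hq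
        _ = p * c ^ (i + 1) := by ring
    have e2 : p * c ^ (i + 1) ≤ p * c ^ k :=
      Nat.mul_le_mul_left _ (Nat.pow_le_pow_right hc hik)
    omega
  rcases Nat.eq_zero_or_pos c with hc | hc
  · subst hc
    have : q = 0 := by omega
    subst this
    omega
  · rcases lt_trichotomy j j' with h | h | h
    · exact (key j j' h h2 h3 hc).elim
    · exact h
    · exact (key j' j h h4 h1 hc).elim

/-- uniqueness, other boundary -/
theorem br1_u2 (c p q X : ℕ) (hq : q ≤ c * p) (j j' : ℕ) (h1 : p * c ^ j < X)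
    (h2 : X ≤ q * c ^ j) (h3 : p * c ^ j' < X) (h4 : X ≤ q * c ^ j') : j = j' := by
  have key : ∀ i k : ℕ, i < k → X ≤ q * c ^ i → p * c ^ k < X → 1 ≤ c → False := by
    intro i k hik ha hb hc
    have e1 : q * c ^ i ≤ p * c ^ (i + 1) := by
      calc q * c ^ i ≤ (c * p) * c ^ i := Nat.mul_le_mul_right _ hq
        _ = p * c ^ (i + 1) := by ring
    have e2 : p * c ^ (i + 1) ≤ p * c ^ k :=
      Nat.mul_le_mul_left _ (Nat.pow_le_pow_right hc hik)
    omega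
  rcases Nat.eq_zero_or_pos c with hc | hc
  · subst hc
    have : q = 0 := by omega
    subst this
    omega
  · rcases lt_trichotomy j j' with h | h | h
    · exact (key j j' h h2 h3 hc).elim
    · exact h
    · exact (key j' j h h4 h1 hc).elim

theorem br1_sum (c r : ℕ) (hc : 2 ≤ c) :
    Summable (fun b : ℕ => 1 / ((r * c ^ b : ℕ) : ℝ)) := by
  have h1 : Summable (fun b : ℕ => ((c : ℝ)⁻¹) ^ b) := by
    refine summable_geometric_of_lt_one (by positivity) ?_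
    have : (2 : ℝ) ≤ c := by exact_mod_cast hc
    exact inv_lt_one_of_one_lt₀ (by linarith)
  refine (h1.mul_left ((r : ℝ)⁻¹)).congr fun b => ?_
  push_cast
  rw [one_div, mul_inv, inv_pow]

/-- **BR1** -/
theorem gBR1 : BR1 := by
  rintro p q r s ⟨hp, hpq, hq4, hr, hrs, hs3, _⟩
  have n0 : ∀ c t b : ℕ, 0 ≤ 1 / ((t * c ^ b : ℕ) : ℝ) := fun c t b => by positivity
  have k1 := br1_key1 (fun j b => p * 4 ^ j ≤ r * 3 ^ b ∧ r * 3 ^ b < q * 4 ^ j)
    (fun b => 1 / ((r * 3 ^ b : ℕ) : ℝ)) (br1_sum 3 r (by norm_num)) (n0 3 r)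
    (fun b j j' h h' => br1_u1 4 p q _ hq4 j j' h.1 h.2 h'.1 h'.2)
  have k3 := br1_key1 (fun j b => p * 4 ^ j < s * 3 ^ b ∧ s * 3 ^ b < q * 4 ^ j)
    (fun b => 1 / ((s * 3 ^ b : ℕ) : ℝ)) (br1_sum 3 s (by norm_num)) (n0 3 s)
    (fun b j j' h h' => br1_u1 4 p q _ hq4 j j' h.1.le h.2 h'.1.le h'.2)
  have k2 := br1_key2 (fun j b => r * 3 ^ b < p * 4 ^ j ∧ p * 4 ^ j < s * 3 ^ b)
    (fun j => 1 / ((p * 4 ^ j : ℕ) : ℝ)) (br1_sum 4 p (by norm_num)) (n0 4 p)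
    (fun j b b' h h' => br1_u2 3 r s _ hs3 b b' h.1 h.2.le h'.1 h'.2.le)
  have k4 := br1_key2 (fun j b => r * 3 ^ b < q * 4 ^ j ∧ q * 4 ^ j ≤ s * 3 ^ b)
    (fun j => 1 / ((q * 4 ^ j : ℕ) : ℝ)) (br1_sum 4 q (by norm_num)) (n0 4 q)
    (fun j b b' h h' => br1_u2 3 r s _ hs3 b b' h.1 h.2 h'.1 h'.2)
  have eA : (fun b : ℕ => dA p q r s b / 3 ^ b) = fun b : ℕ =>
      (if ∃ j : ℕ, p * 4 ^ j ≤ r * 3 ^ b ∧ r * 3 ^ b < q * 4 ^ j then
        1 / ((r * 3 ^ b : ℕ) : ℝ) else 0) -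
      (if ∃ j : ℕ, p * 4 ^ j < s * 3 ^ b ∧ s * 3 ^ b < q * 4 ^ j then
        1 / ((s * 3 ^ b : ℕ) : ℝ) else 0) := by
    funext b
    unfold dA
    rw [sub_div]
    congr 1
    · split_ifs
      · push_cast; rw [div_div]
      · simp
    · split_ifs
      · push_cast; rw [div_div]
      · simp
  have eB : (fun j : ℕ => dB p q r s j / 4 ^ j) = fun j : ℕ =>
      (if ∃ b : ℕ, r * 3 ^ b < p * 4 ^ j ∧ p * 4 ^ j < s * 3 ^ b then
        1 / ((p * 4 ^ j : ℕ) : ℝ) else 0) -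
      (if ∃ b : ℕ, r * 3 ^ b < q * 4 ^ j ∧ q * 4 ^ j ≤ s * 3 ^ b then
        1 / ((q * 4 ^ j : ℕ) : ℝ) else 0) := by
    funext j
    unfold dB
    rw [sub_div]
    congr 1
    · split_ifs
      · push_cast; rw [div_div]
      · simp
    · split_ifs
      · push_cast; rw [div_div]
      · simp
  have em : mm p q r s = fun x : ℕ × ℕ =>
      (if p * 4 ^ x.1 ≤ r * 3 ^ x.2 ∧ r * 3 ^ x.2 < q * 4 ^ x.1 then
        1 / ((r * 3 ^ x.2 : ℕ) : ℝ) else 0) +
      (if r * 3 ^ x.2 < p * 4 ^ x.1 ∧ p * 4 ^ x.1 < s * 3 ^ x.2 then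
        1 / ((p * 4 ^ x.1 : ℕ) : ℝ) else 0) -
      (if p * 4 ^ x.1 < s * 3 ^ x.2 ∧ s * 3 ^ x.2 < q * 4 ^ x.1 then
        1 / ((s * 3 ^ x.2 : ℕ) : ℝ) else 0) -
      (if r * 3 ^ x.2 < q * 4 ^ x.1 ∧ q * 4 ^ x.1 ≤ s * 3 ^ x.2 then
        1 / ((q * 4 ^ x.1 : ℕ) : ℝ) else 0) := by
    funext x
    have h4 : 0 < 4 ^ x.1 := by positivity
    have h3 : 0 < 3 ^ x.2 := by positivity
    have h := br1_pt (p * 4 ^ x.1) (q * 4 ^ x.1) (r * 3 ^ x.2) (s * 3 ^ x.2)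
      (Nat.mul_pos hp h4) (Nat.mul_lt_mul_of_pos_right hpq h4)
      (Nat.mul_pos hr h3) (Nat.mul_lt_mul_of_pos_right hrs h3)
    rw [← h]
    unfold mm
    push_cast
    rfl
  refine ⟨?_, ?_, ?_⟩
  · rw [eA]
    exact k1.1.sub k3.1
  · rw [eB]
    exact k2.1.sub k4.1
  · rw [eA, eB, k1.1.tsum_sub k3.1, k2.1.tsum_sub k4.1, em]
    have h := ((k1.2.add k2.2).sub k3.2).sub k4.2
    refine h.tsum_eq.trans ?_
    ring

end Pool.Agent.Helper96.VF
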